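import Pool.Agent.TH866.SR.Final
import Pool.Agent.H951R5.AR.Fin

/-!
# Units and small relations for real quadratic fields, uniformly over all sets of sifting primes

The deduction is the one of `Pool.Agent.TH866.SR.Final` (helper866) with the exceptional set of
`Pool.Agent.H951R5.AR.Fin` (helper951).
-/

set_option autoImplicit false

namespace Pool.Agent.TH924.SR

open Finset Filter NumberField Pool.Agent.H38R2.CG Pool.Agent.H38R2.CG2 Pool.Agent.H38R2.CG3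
open Pool.Agent.H38R2.CG.FINh Pool.Agent.H951R5.AR Pool.Agent.TH866.SR
open scoped Classical

/-- uniform form in terms of the discriminants -/
theorem finalAR_q (hN0 : P_N0) (hN0d : P_N0d) (hN1 : P_N1) (hN3 : P_N3) (hN5 : P_N5)
    (hN6 : P_N6) (hBF : P2_BF) (hHB : P2_HB) (hHD : P2_HD) (hCH : P2_CH)
    (hBHa : P2_BHa) (hAS : P3_AS0) : ∀ a τ : ℝ, 2 < a → 0 < τ → ∃ X0 : ℕ, ∀ X ≥ X0,
      ∀ Q : Set ℕ, (((Finset.Icc 2 X).filter (fun d => Squarefree d ∧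
        (∀ q ∈ Q, q.Prime → ¬ q ∣ d) ∧ ¬ GoodAR a d)).card : ℝ) ≤ τ * X * pq Q X := by
  intro a τ ha hτ
  obtain ⟨L, hL0, hL1, -, -⟩ := id hCH
  obtain ⟨c, hc, hlow⟩ := pq_low hL0 hL1
  set τ' : ℝ := τ / (16 * Real.exp (2 * L)) with hτ'
  have hE : 0 < Real.exp (2 * L) := Real.exp_pos _
  have hτ'0 : 0 < τ' := by positivity
  obtain ⟨η, hη, hη1, X0, hX0⟩ := short_q hBF hHB hHD hCH hBHa hAS a ha (1 / 4) (by norm_num) τ' hτ'0
  obtain ⟨X1, hX1⟩ := exc_bd' hN0 hN0d hN1 hN3 hN5 hN6 a ha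
  set M0 : ℝ := (X0 : ℝ) + X1 with hM0
  have hM00 : 0 ≤ M0 := by positivity
  set C : ℝ := 6 / η + 2 * M0 + 2 with hC
  have hC0 : 0 < C := by positivity
  -- the terms of lower order
  have htend : Tendsto (fun X : ℕ => (X : ℝ) ^ (3 / 8 : ℝ)) atTop atTop :=
    (tendsto_rpow_atTop (by norm_num)).comp tendsto_natCast_atTop_atTop
  obtain ⟨Y0, hY0⟩ := Filter.eventually_atTop.mp
    (htend.eventually_ge_atTop ((C + 4) * 2 / (τ * c)))
  refine ⟨max Y0 1, fun Y hY Q => ?_⟩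
  have hY1 : 1 ≤ Y := (le_max_right _ _).trans hY
  have hYR : (1 : ℝ) ≤ Y := by exact_mod_cast hY1
  have hYY := hY0 Y ((le_max_left _ _).trans hY)
  set R : ℕ → Prop := fun D => ∃ d : ℕ, 1 < d ∧ Squarefree d ∧
    ((∀ q ∈ Q, q.Prime → ¬ q ∣ d) ∧ ¬ GoodAR a d) ∧ D = Dof d with hR
  set Z : ℕ := 4 * Y with hZ
  have hZ1 : 1 ≤ Z := by omega
  have hsZ : 0 ≤ √(Z : ℝ) := Real.sqrt_nonneg _
  have hstep : ∀ X : ℕ, M0 + √(Z : ℝ) ≤ X →
      (NR R ⌊(1 + η) * X⌋₊ : ℝ) ≤ NR R X + (τ' * (Real.exp (2 * L) * pq Q Z)) * η * X := by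
    intro X hX
    have hX00 : (0 : ℝ) ≤ X0 := by positivity
    have hX11 : (0 : ℝ) ≤ X1 := by positivity
    have hXX0 : X0 ≤ X := by
      have : (X0 : ℝ) ≤ X := by linarith
      exact_mod_cast this
    have hXX1 : X1 ≤ X := by
      have : (X1 : ℝ) ≤ X := by linarith
      exact_mod_cast this
    have hXZ : √(Z : ℝ) ≤ X := by linarith
    have hle : X ≤ ⌊(1 + η) * (X : ℝ)⌋₊ := by
      apply Nat.le_floor
      have : (0 : ℝ) ≤ X := by positivity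
      nlinarith
    have h2 := NR_add R hle
    have h3 := hX0 X hXX0 Q
    have h2' : (NR R ⌊(1 + η) * (X : ℝ)⌋₊ : ℝ) ≤
        NR R X + (((Finset.Ioc X ⌊(1 + η) * (X : ℝ)⌋₊).filter R).card : ℝ) := by
      exact_mod_cast h2
    have hsub : ((Finset.Ioc X ⌊(1 + η) * (X : ℝ)⌋₊).filter R) ⊆
        (Finset.Ioc X ⌊(1 + η) * (X : ℝ)⌋₊).filter
          (fun D => (∀ q ∈ Q, q.Prime → 3 ≤ q → ¬ q ∣ D) ∧
            IsFund D ∧ Bd a (1 / 4) X D) := by
      intro D hD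
      rw [Finset.mem_filter] at hD ⊢
      obtain ⟨hD1, d, hd1, hds, ⟨hdQ, hg⟩, rfl⟩ := hD
      refine ⟨hD1, ?_, ?_⟩
      · intro q hq hqp hq3 hqd
        apply hdQ q hq hqp
        unfold Dof at hqd
        split_ifs at hqd
        · exact hqd
        · rcases (Nat.Prime.dvd_mul hqp).1 hqd with h5 | h5
          · exfalso
            have h6 : q ∣ 2 ^ 2 := by norm_num; exact h5
            have h7 := hqp.dvd_of_dvd_pow h6
            have := Nat.le_of_dvd (by norm_num) h7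
            omega
          · exact h5
      · refine hX1 X hXX1 d hd1 hds hg (Finset.mem_Ioc.1 hD1).1 ?_
        have h1 := (Finset.mem_Ioc.1 hD1).2
        have h2 : ((⌊(1 + η) * (X : ℝ)⌋₊ : ℕ) : ℝ) ≤ (1 + η) * (X : ℝ) :=
          Nat.floor_le (by positivity)
        have h3 : (Dof d : ℝ) ≤ (⌊(1 + η) * (X : ℝ)⌋₊ : ℝ) := by exact_mod_cast h1
        have h5 : (Dof d : ℝ) ≤ 2 * (X : ℝ) := by
          have : (0 : ℝ) ≤ X := by positivity
          nlinarith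
        exact_mod_cast h5
    have h4 : (((Finset.Ioc X ⌊(1 + η) * (X : ℝ)⌋₊).filter R).card : ℝ) ≤
        τ' * η * X * pq Q X := by
      refine le_trans ?_ h3
      exact_mod_cast Finset.card_le_card hsub
    have h5 : pq Q X ≤ Real.exp (2 * L) * pq Q Z := by
      refine le_trans (pq_anti Q ?_) (pq_sqrt hL1 Q Z hZ1)
      have : ((⌊√(Z : ℝ)⌋₊ : ℕ) : ℝ) ≤ X := (Nat.floor_le hsZ).trans hXZ
      exact_mod_cast this
    have h6 : τ' * η * X * pq Q X ≤ τ' * η * X * (Real.exp (2 * L) * pq Q Z) :=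
      mul_le_mul_of_nonneg_left h5 (by positivity)
    linarith
  have hpZ := pq_pos Q Z
  have h5 := PFh.iter (NR R) (NR_le R) (NR_mono R) η (τ' * (Real.exp (2 * L) * pq Q Z))
    (M0 + √(Z : ℝ)) hη hη1 (by positivity) (by positivity) hstep Z
  have hcn : ((Finset.Icc 2 Y).filter (fun d => Squarefree d ∧
        (∀ q ∈ Q, q.Prime → ¬ q ∣ d) ∧ ¬ GoodAR a d)).card ≤ NR R (4 * Y) := by
    unfold NR
    refine Finset.card_le_card_of_injOn Dof ?_ ?_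
    · intro d hd
      rw [Finset.mem_coe, Finset.mem_filter, Finset.mem_Icc] at hd
      rw [Finset.mem_coe, Finset.mem_filter, Finset.mem_Ioc]
      have h1 : 1 < d := by omega
      refine ⟨⟨?_, ?_⟩, d, h1, hd.2.1, hd.2.2, rfl⟩
      · have := (isFund_Dof h1 hd.2.1).1
        omega
      · refine (Dof_le d).trans ?_
        omega
    · intro d _ d' _ h
      exact Dof_inj h
  have hcn' : (((Finset.Icc 2 Y).filter (fun d => Squarefree d ∧
        (∀ q ∈ Q, q.Prime → ¬ q ∣ d) ∧ ¬ GoodAR a d)).card : ℝ) ≤ NR R Z := by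
    exact_mod_cast hcn
  have hsqrt : √(Z : ℝ) = 2 * √(Y : ℝ) := by
    rw [hZ]
    push_cast
    rw [Real.sqrt_mul (by norm_num)]
    congr 1
    rw [show (4 : ℝ) = 2 ^ 2 by norm_num]
    exact Real.sqrt_sq (by norm_num)
  have hpp : pq Q Z ≤ pq Q Y := pq_anti Q (by omega)
  have hpY := pq_pos Q Y
  have hlowY := hlow Q Y hY1
  -- the small terms
  have hs1 : 1 ≤ √(Y : ℝ) := by rwa [Real.one_le_sqrt]
  have hYhalf : (Y : ℝ) ^ (3 / 8 : ℝ) * √(Y : ℝ) = Y * (Y : ℝ) ^ (-(1 / 8) : ℝ) := by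
    rw [Real.sqrt_eq_rpow, ← Real.rpow_add (by linarith)]
    nth_rw 2 [← Real.rpow_one (Y : ℝ)]
    rw [← Real.rpow_add (by linarith)]
    norm_num
  have hsmall : C + 4 * √(Y : ℝ) ≤ τ / 2 * Y * pq Q Y := by
    have h1 : C + 4 * √(Y : ℝ) ≤ (C + 4) * √(Y : ℝ) := by nlinarith
    have h2 : (C + 4) * √(Y : ℝ) ≤ τ * c / 2 * ((Y : ℝ) ^ (3 / 8 : ℝ) * √(Y : ℝ)) := by
      have h3 : (C + 4) ≤ τ * c / 2 * (Y : ℝ) ^ (3 / 8 : ℝ) := by
        rw [div_le_iff₀ (by positivity)] at hYY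
        nlinarith
      calc (C + 4) * √(Y : ℝ) ≤ (τ * c / 2 * (Y : ℝ) ^ (3 / 8 : ℝ)) * √(Y : ℝ) :=
            mul_le_mul_of_nonneg_right h3 (by positivity)
        _ = _ := by ring
    rw [hYhalf] at h2
    have h4 : τ * c / 2 * (Y * (Y : ℝ) ^ (-(1 / 8) : ℝ)) ≤ τ / 2 * Y * pq Q Y := by
      calc τ * c / 2 * (Y * (Y : ℝ) ^ (-(1 / 8) : ℝ)) =
            τ / 2 * Y * (c * (Y : ℝ) ^ (-(1 / 8) : ℝ)) := by ring
        _ ≤ _ := mul_le_mul_of_nonneg_left hlowY (by positivity)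
    linarith
  have hmain : 2 * (τ' * (Real.exp (2 * L) * pq Q Z)) * (Z : ℝ) ≤ τ / 2 * Y * pq Q Y := by
    have h1 : 2 * (τ' * (Real.exp (2 * L) * pq Q Z)) * (Z : ℝ) = τ / 2 * Y * pq Q Z := by
      rw [hτ', hZ]
      push_cast
      field_simp
      ring
    rw [h1]
    exact mul_le_mul_of_nonneg_left hpp (by positivity)
  calc _ ≤ (NR R Z : ℝ) := hcn'
    _ ≤ _ := h5
    _ ≤ τ / 2 * Y * pq Q Y + (C + 4 * √(Y : ℝ)) := by
        rw [hsqrt] at *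
        have : 6 / η + 2 * (M0 + 2 * √(Y : ℝ)) + 2 = C + 4 * √(Y : ℝ) := by rw [hC]; ring
        linarith
    _ ≤ _ := by linarith

theorem finalAR : ∀ a τ : ℝ, 2 < a → 0 < τ → ∃ X0 : ℕ, ∀ X ≥ X0,
      ∀ Q : Set ℕ, (((Finset.Icc 2 X).filter (fun d => Squarefree d ∧
        (∀ q ∈ Q, q.Prime → ¬ q ∣ d) ∧ ¬ GoodAR a d)).card : ℝ) ≤
      τ * X * ∏ q ∈ (Finset.Icc 2 X).filter (fun q => q.Prime ∧ q ∈ Q), (1 - 1 / (q : ℝ)) := by
  obtain ⟨hN0, hN0d, hN1, hN3, h4, hKF, h5b, hN6, hBF, hHB, hHD, hCH, hBHa, hAS⟩ := ingredients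
  intro a τ ha hτ
  have hN5 : P_N5 := T_N5 hN3 h4 (T_N5a hKF) h5b
  obtain ⟨X0, hX0⟩ := finalAR_q hN0 hN0d hN1 hN3 hN5 hN6 hBF hHB hHD hCH hBHa hAS a
    (τ / 2) ha (by positivity)
  refine ⟨X0, fun X hX Q => (hX0 X hX Q).trans ?_⟩
  have h1 : pq Q X ≤ 2 * ∏ q ∈ (Finset.Icc 2 X).filter (fun q => q.Prime ∧ q ∈ Q),
      (1 - 1 / (q : ℝ)) := by
    have hpos := pq_pos Q X
    have hsub : (Finset.Icc 3 X).filter (fun q => q.Prime ∧ q ∈ Q) ⊆
        (Finset.Icc 2 X).filter (fun q => q.Prime ∧ q ∈ Q) :=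
      Finset.filter_subset_filter _ (Finset.Icc_subset_Icc_left (by norm_num))
    rw [← Finset.prod_sdiff hsub]
    have h2 : (1 / 2 : ℝ) ≤ ∏ q ∈ (Finset.Icc 2 X).filter (fun q => q.Prime ∧ q ∈ Q) \
        (Finset.Icc 3 X).filter (fun q => q.Prime ∧ q ∈ Q), (1 - 1 / (q : ℝ)) := by
      have hsub2 : (Finset.Icc 2 X).filter (fun q => q.Prime ∧ q ∈ Q) \
          (Finset.Icc 3 X).filter (fun q => q.Prime ∧ q ∈ Q) ⊆ {2} := by
        intro q hq
        rw [Finset.mem_sdiff, Finset.mem_filter, Finset.mem_filter, Finset.mem_Icc,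
          Finset.mem_Icc] at hq
        rw [Finset.mem_singleton]
        by_contra hne
        exact hq.2 ⟨⟨by omega, hq.1.1.2⟩, hq.1.2⟩
      have h3 : ∏ q ∈ ({2} : Finset ℕ), (1 - 1 / (q : ℝ)) = 1 / 2 := by
        rw [Finset.prod_singleton]
        norm_num
      rw [← h3]
      apply BHch.prod_anti _ _ hsub2
      intro p hp
      rw [Finset.mem_singleton] at hp
      rw [hp]
      exact Nat.prime_two
    show pq Q X ≤ 2 * (_ * pq Q X)
    nlinarith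
  calc τ / 2 * X * pq Q X ≤ τ / 2 * X * (2 * ∏ q ∈ (Finset.Icc 2 X).filter
      (fun q => q.Prime ∧ q ∈ Q), (1 - 1 / (q : ℝ))) :=
        mul_le_mul_of_nonneg_left h1 (by positivity)
    _ = _ := by ring

end Pool.Agent.TH924.SR
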